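import Pool.Agent.W927.BM.Stm

set_option autoImplicit false

/-! # GEO: existence of good islands, from WALL and TIP (project BM of helper927) -/

noncomputable section

namespace Pool.Agent.W875.BMGeo

open Pool.Agent.W927.BM

lemma Sk_form : ∀ k : ℕ, ∃ M : ℤ, Sk k = 8 * M ∧ 8192 ≤ M
  | 0 => ⟨8192, by norm_num [Sk], le_rfl⟩
  | k + 1 => by
      obtain ⟨M, hM, hM'⟩ := Sk_form k
      refine ⟨2 ^ (3 * k + 48) * M, by rw [Sk, hM]; ring, ?_⟩
      have : (1 : ℤ) ≤ 2 ^ (3 * k + 48) := one_le_pow₀ (by norm_num)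
      nlinarith

lemma Sk_pos (k : ℕ) : 0 < Sk k := by
  obtain ⟨M, hM, hM'⟩ := Sk_form k
  omega

lemma Tk_ge (k : ℕ) : 65536 ≤ Tk k := by
  obtain ⟨M, hM, hM'⟩ := Sk_form k
  have : (1 : ℤ) ≤ 2 ^ (k + 16) := one_le_pow₀ (by norm_num)
  rw [Tk, hM]
  nlinarith

lemma T_le_R (k : ℕ) : 16 * Tk k ≤ Rk k := by
  have h := Sk_pos k
  have h1 : (2 : ℤ) ^ (2 * k + 32) = 16 * 2 ^ (k + 16) * 2 ^ (k + 12) := by
    rw [show (16 : ℤ) = 2 ^ 4 by norm_num, ← pow_add, ← pow_add]; congr 1; ring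
  have h2 : (1 : ℤ) ≤ 2 ^ (k + 12) := one_le_pow₀ (by norm_num)
  have h3 : (0 : ℤ) < 2 ^ (k + 16) := by positivity
  rw [Tk, Rk, h1]
  have : 0 ≤ 16 * 2 ^ (k + 16) * Sk k := by positivity
  nlinarith

lemma sumR : ∀ k : ℕ, 2 ^ 15 * ∑ i ∈ Finset.range k, Rk i ≤ Sk k
  | 0 => by simpa using (Sk_pos 0).le
  | k + 1 => by
      have h := Sk_pos k
      rw [Finset.sum_range_succ, mul_add]
      have h1 := sumR k
      have h2 : (2 : ℤ) ^ 15 * Rk k = 2 ^ (2 * k + 47) * Sk k := by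
        rw [Rk, ← mul_assoc, ← pow_add]; congr 2; ring
      have h3 : (1 : ℤ) + 2 ^ (2 * k + 47) ≤ 2 ^ (3 * k + 48) := by
        have a1 : (1 : ℤ) ≤ 2 ^ (2 * k + 47) := one_le_pow₀ (by norm_num)
        have a2 : (2 : ℤ) ^ (2 * k + 48) = 2 * 2 ^ (2 * k + 47) := by rw [pow_succ]; ring
        have a3 : (2 : ℤ) ^ (2 * k + 48) ≤ 2 ^ (3 * k + 48) :=
          pow_le_pow_right₀ (by norm_num) (by omega)
        linarith
      rw [h2, Sk]
      nlinarith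

lemma sumR_nonneg (k : ℕ) : 0 ≤ ∑ i ∈ Finset.range k, Rk i := by
  apply Finset.sum_nonneg
  intro i _
  have := Tk_ge i
  have := T_le_R i
  linarith

lemma sumT (k : ℕ) : ∑ i ∈ Finset.range k, 16 * (Tk i : ℝ) ≤
    ((∑ i ∈ Finset.range k, Rk i : ℤ) : ℝ) := by
  push_cast
  apply Finset.sum_le_sum
  intro i _
  exact_mod_cast T_le_R i

lemma sumT_nonneg (k : ℕ) : 0 ≤ ∑ i ∈ Finset.range k, 16 * (Tk i : ℝ) := by
  apply Finset.sum_nonneg
  intro i _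
  have h : (65536 : ℝ) ≤ Tk i := by exact_mod_cast Tk_ge i
  linarith

/-- clearance near a tip -/
lemma clear (P : ℝ) (hP : 5 ≤ P) (a y z1 z2 : ℝ) (h : 2 * P ≤ max |a - z1| |y - z2|)
    (t v : ℝ) (ht : |t - a| ≤ 1) (hv : |v - (y - a / 2)| ≤ 2) :
    P ≤ max |t - z1| |v - (z2 - z1 / 2)| := by
  by_contra hc
  push Not at hc
  obtain ⟨h1, h2⟩ := max_lt_iff.1 hc
  rw [abs_lt] at h1 h2
  rw [abs_le] at ht hv
  rcases le_max_iff.1 h with h3 | h3 <;> rcases le_abs.1 h3 with h3 | h3 <;> linarith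

/-- facts about the wall `⌊g t + t/2⌋` -/
def fl (g : ℤ → ℝ) (t : ℤ) : ℤ := ⌊g t + t / 2⌋

lemma fl_le (g : ℤ → ℝ) (t : ℤ) : (fl g t : ℝ) ≤ g t + t / 2 := Int.floor_le _

lemma lt_fl (g : ℤ → ℝ) (t : ℤ) : g t + t / 2 < (fl g t : ℝ) + 1 := Int.lt_floor_add_one _

lemma fl_s1 (g : ℤ → ℝ) (hg : ∀ s t : ℤ, |g s - g t| ≤ 1 / 4 * |(s : ℝ) - t|) (s t : ℤ)
    (h : s ≤ t) : t - s ≤ 4 * (fl g t - fl g s) + 4 := by
  have h1 := hg s t
  have h' : (s : ℝ) ≤ t := by exact_mod_cast h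
  rw [abs_of_nonpos (by linarith : (s : ℝ) - t ≤ 0), abs_le] at h1
  have h2 := fl_le g s
  have h3 := lt_fl g t
  have : ((t - s : ℤ) : ℝ) < ((4 * (fl g t - fl g s) + 4 : ℤ) : ℝ) := by push_cast; linarith
  have := (Int.cast_lt (R := ℝ)).1 this
  omega

lemma fl_s2 (g : ℤ → ℝ) (hg : ∀ s t : ℤ, |g s - g t| ≤ 1 / 4 * |(s : ℝ) - t|) (s t : ℤ)
    (h : s ≤ t) : 4 * (fl g t - fl g s) ≤ 3 * (t - s) + 4 := by
  have h1 := hg s t
  have h' : (s : ℝ) ≤ t := by exact_mod_cast h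
  rw [abs_of_nonpos (by linarith : (s : ℝ) - t ≤ 0), abs_le] at h1
  have h2 := fl_le g t
  have h3 := lt_fl g s
  have : ((4 * (fl g t - fl g s) : ℤ) : ℝ) < ((3 * (t - s) + 4 : ℤ) : ℝ) := by push_cast; linarith
  have := (Int.cast_lt (R := ℝ)).1 this
  omega

lemma fl_step (g : ℤ → ℝ) (hg : ∀ s t : ℤ, |g s - g t| ≤ 1 / 4 * |(s : ℝ) - t|) (t : ℤ) :
    fl g (t + 1) = fl g t ∨ fl g (t + 1) = fl g t + 1 := by
  have h1 := hg t (t + 1)
  push_cast at h1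
  rw [show (t : ℝ) - (t + 1) = -1 by ring, abs_neg, abs_one, abs_le] at h1
  have h2 := fl_le g t
  have h3 := lt_fl g t
  have h4 := fl_le g (t + 1)
  have h5 := lt_fl g (t + 1)
  push_cast at h4 h5
  have h6 : (fl g (t + 1) : ℝ) < ((fl g t + 2 : ℤ) : ℝ) := by push_cast; linarith
  have h7 : ((fl g t - 1 : ℤ) : ℝ) < (fl g (t + 1) : ℝ) := by push_cast; linarith
  have h6' := (Int.cast_lt (R := ℝ)).1 h6
  have h7' := (Int.cast_lt (R := ℝ)).1 h7
  omega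

lemma fl_far (g : ℤ → ℝ) (T : ℤ) (hT : 65536 ≤ T) (z : ℤ × ℤ) (t : ℤ)
    (h : |t - z.1| ≤ 4 * T → 3 / 2 * (T : ℝ) + 4 ≤ |g t - ((z.2 : ℝ) - z.1 / 2)|) :
    T + 2 ≤ dd (t, fl g t) z := by
  rw [dd]
  by_contra hc
  push Not at hc
  obtain ⟨h1, h2⟩ := max_lt_iff.1 hc
  simp only at h1 h2
  have h3 := h (by omega)
  have h1' : |(t : ℝ) - z.1| < T + 2 := by exact_mod_cast h1
  have h2' : |(fl g t : ℝ) - z.2| < T + 2 := by exact_mod_cast h2
  rw [abs_lt] at h1' h2'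
  have h4 := fl_le g t
  have h5 := lt_fl g t
  rcases le_abs.1 h3 with h3 | h3 <;> linarith

/-- the lower version of WALL -/
lemma wall' (W : S_WALL) (k : ℕ) (C : ℕ → Set (ℤ × ℤ)) (hC : ∀ i < k, Sep (C i) (Rk i))
    (f₀ : ℤ → ℝ) (hf : ∀ s t : ℤ, |f₀ s - f₀ t| ≤ 1 / 8 * |(s : ℝ) - t|) :
    ∃ f : ℤ → ℝ, (∀ s t : ℤ, |f s - f t| ≤ 1 / 4 * |(s : ℝ) - t|) ∧
      (∀ t, f t ≤ f₀ t) ∧ (∀ t, f₀ t - ∑ i ∈ Finset.range k, 16 * (Tk i : ℝ) ≤ f t) ∧
      (∀ i < k, ∀ z ∈ C i, ∀ t : ℤ, |t - z.1| ≤ 4 * Tk i →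
        3 / 2 * (Tk i : ℝ) + 4 ≤ |f t - ((z.2 : ℝ) - z.1 / 2)|) ∧
      (∀ t : ℤ, (∀ i < k, ∀ z ∈ C i, 2 ^ (i + 12) * (Tk i : ℝ) ≤
        max |(t : ℝ) - z.1| |f₀ t - ((z.2 : ℝ) - z.1 / 2)|) → f t = f₀ t) := by
  obtain ⟨g, g1, g2, g3, g4, g5⟩ := W k (fun i => {z | -z ∈ C i}) (by
      intro i hi p hp q hq hpq
      have := hC i hi (-p) hp (-q) hq (by simpa using hpq)
      rw [dd] at this ⊢
      rw [show p.1 - q.1 = -((-p).1 - (-q).1) by simp; ring, abs_neg,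
        show p.2 - q.2 = -((-p).2 - (-q).2) by simp; ring, abs_neg]
      exact this) (fun t => -f₀ (-t)) (by
      intro s t
      have := hf (-s) (-t)
      rw [show (fun t => -f₀ (-t)) s - (fun t => -f₀ (-t)) t = -(f₀ (-s) - f₀ (-t)) by
        simp only; ring, abs_neg]
      push_cast at this
      rwa [show -(s : ℝ) - -t = -((s : ℝ) - t) by ring, abs_neg] at this)
  refine ⟨fun t => -g (-t), ?_, ?_, ?_, ?_, ?_⟩
  · intro s t
    have := g1 (-s) (-t)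
    rw [show (fun t => -g (-t)) s - (fun t => -g (-t)) t = -(g (-s) - g (-t)) by
        simp only; ring, abs_neg]
    push_cast at this
    rwa [show -(s : ℝ) - -t = -((s : ℝ) - t) by ring, abs_neg] at this
  · intro t
    have := g2 (-t)
    simp only [neg_neg] at this
    simp only
    linarith
  · intro t
    have := g3 (-t)
    simp only [neg_neg] at this
    simp only
    linarith
  · intro i hi z hz t ht
    have := g4 i hi (-z) (by simpa using hz) (-t) (by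
      rw [Prod.fst_neg, show -t - -z.1 = -(t - z.1) by ring, abs_neg]; exact ht)
    rw [Prod.fst_neg, Prod.snd_neg] at this
    push_cast at this
    rw [show g (-t) - (-(z.2 : ℝ) - -(z.1 : ℝ) / 2) = -(-g (-t) - ((z.2 : ℝ) - z.1 / 2)) by ring,
      abs_neg] at this
    exact this
  · intro t ht
    have := g5 (-t) (by
      intro i hi z hz
      have h := ht i hi (-z) hz
      rw [Prod.fst_neg, Prod.snd_neg] at h
      push_cast at h ⊢
      simp only [neg_neg]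
      rw [show -(t : ℝ) - z.1 = -((t : ℝ) - -z.1) by ring, abs_neg,
        show -f₀ t - ((z.2 : ℝ) - z.1 / 2) = -(f₀ t - (-z.2 - -z.1 / 2)) by ring, abs_neg]
      exact h)
    simp only [neg_neg] at this
    simp only
    linarith

lemma lip_min (a b : ℝ) (t0 t1 : ℤ) (s t : ℤ) :
    |min (a + 1 / 8 * ((s : ℝ) - t0)) (b + 1 / 8 * ((t1 : ℝ) - s)) -
      min (a + 1 / 8 * ((t : ℝ) - t0)) (b + 1 / 8 * ((t1 : ℝ) - t))| ≤ 1 / 8 * |(s : ℝ) - t| := by
  refine (abs_min_sub_min_le_max _ _ _ _).trans (max_le ?_ ?_)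
  · rw [show a + 1 / 8 * ((s : ℝ) - t0) - (a + 1 / 8 * ((t : ℝ) - t0)) = 1 / 8 * (s - t) by ring,
      abs_mul]; norm_num
  · rw [show b + 1 / 8 * ((t1 : ℝ) - s) - (b + 1 / 8 * ((t1 : ℝ) - t)) = -(1 / 8 * (s - t)) by ring,
      abs_neg, abs_mul]; norm_num

lemma lip_max (a b : ℝ) (t0 t1 : ℤ) (s t : ℤ) :
    |max (a - 1 / 8 * ((s : ℝ) - t0)) (b - 1 / 8 * ((t1 : ℝ) - s)) -
      max (a - 1 / 8 * ((t : ℝ) - t0)) (b - 1 / 8 * ((t1 : ℝ) - t))| ≤ 1 / 8 * |(s : ℝ) - t| := by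
  refine (abs_max_sub_max_le_max _ _ _ _).trans (max_le ?_ ?_)
  · rw [show a - 1 / 8 * ((s : ℝ) - t0) - (a - 1 / 8 * ((t : ℝ) - t0)) = -(1 / 8 * (s - t)) by ring,
      abs_neg, abs_mul]; norm_num
  · rw [show b - 1 / 8 * ((t1 : ℝ) - s) - (b - 1 / 8 * ((t1 : ℝ) - t)) = 1 / 8 * (s - t) by ring,
      abs_mul]; norm_num

theorem main (W : S_WALL) (TP : S_TIP) : S_GEO := by
  intro k C hC
  obtain ⟨M, hM, hM'⟩ := Sk_form k
  set dl : ℤ := ∑ i ∈ Finset.range k, Rk i with hdl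
  have hdl0 : 0 ≤ dl := sumR_nonneg k
  have hdlM : 4096 * dl ≤ M := by
    have := sumR k
    rw [hM] at this
    omega
  set de : ℝ := ∑ i ∈ Finset.range k, 16 * (Tk i : ℝ) with hde
  have hde0 : 0 ≤ de := sumT_nonneg k
  have hdedl : de ≤ dl := sumT k
  obtain ⟨⟨t0, x0⟩, ha, ha'⟩ := TP k C hC (-2 * M, -M)
  obtain ⟨⟨t1, x1⟩, hb, hb'⟩ := TP k C hC (2 * M, M)
  rw [dd] at ha hb
  obtain ⟨ha1, ha2⟩ := max_le_iff.1 ha
  obtain ⟨hb1, hb2⟩ := max_le_iff.1 hb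
  simp only at ha1 ha2 hb1 hb2
  rw [← hdl, abs_le] at ha1 ha2 hb1 hb2
  -- casts to reals
  have M' : (8192 : ℝ) ≤ M := by exact_mod_cast hM'
  have dl0 : (0 : ℝ) ≤ dl := by exact_mod_cast hdl0
  have dlM : 4096 * (dl : ℝ) ≤ M := by exact_mod_cast hdlM
  have ra1 : -(dl : ℝ) ≤ -2 * M - t0 := by exact_mod_cast ha1.1
  have ra2 : -2 * (M : ℝ) - t0 ≤ dl := by exact_mod_cast ha1.2
  have ra3 : -(dl : ℝ) ≤ -M - x0 := by exact_mod_cast ha2.1
  have ra4 : -(M : ℝ) - x0 ≤ dl := by exact_mod_cast ha2.2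
  have rb1 : -(dl : ℝ) ≤ 2 * M - t1 := by exact_mod_cast hb1.1
  have rb2 : 2 * (M : ℝ) - t1 ≤ dl := by exact_mod_cast hb1.2
  have rb3 : -(dl : ℝ) ≤ M - x1 := by exact_mod_cast hb2.1
  have rb4 : (M : ℝ) - x1 ≤ dl := by exact_mod_cast hb2.2
  -- clearance of the tips
  have ca : ∀ i < k, ∀ z ∈ C i, 2 * (2 ^ (i + 12) * (Tk i : ℝ)) ≤
      max |(t0 : ℝ) - z.1| |(x0 : ℝ) - z.2| := by
    intro i hi z hz
    have h : ((2 ^ (i + 13) * Tk i : ℤ) : ℝ) ≤ ((dd (t0, x0) z : ℤ) : ℝ) :=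
      Int.cast_le.2 (ha' i hi z hz)
    rw [dd] at h
    push_cast at h
    rw [← mul_assoc, show (2 : ℝ) * 2 ^ (i + 12) = 2 ^ (i + 13) by ring]
    exact h
  have cb : ∀ i < k, ∀ z ∈ C i, 2 * (2 ^ (i + 12) * (Tk i : ℝ)) ≤
      max |(t1 : ℝ) - z.1| |(x1 : ℝ) - z.2| := by
    intro i hi z hz
    have h : ((2 ^ (i + 13) * Tk i : ℤ) : ℝ) ≤ ((dd (t1, x1) z : ℤ) : ℝ) :=
      Int.cast_le.2 (hb' i hi z hz)
    rw [dd] at h
    push_cast at h
    rw [← mul_assoc, show (2 : ℝ) * 2 ^ (i + 12) = 2 ^ (i + 13) by ring]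
    exact h
  have P5 : ∀ i, (5 : ℝ) ≤ 2 ^ (i + 12) * (Tk i : ℝ) := by
    intro i
    have h1 : (65536 : ℝ) ≤ Tk i := by exact_mod_cast Tk_ge i
    have h2 : (1 : ℝ) ≤ 2 ^ (i + 12) := one_le_pow₀ (by norm_num)
    nlinarith
  -- upper wall
  obtain ⟨g, g1, g2, g3, g4, g5⟩ := W k C hC
    (fun s => min ((x0 : ℝ) + 1 / 2 - t0 / 2 + 1 / 8 * ((s : ℝ) - t0))
      ((x1 : ℝ) + 1 / 2 - t1 / 2 + 1 / 8 * ((t1 : ℝ) - s))) (lip_min _ _ _ _)
  obtain ⟨f, f1, f2, f3, f4, f5⟩ := wall' W k C hC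
    (fun s => max ((x0 : ℝ) - t0 / 2 - 1 / 8 * ((s : ℝ) - t0))
      ((x1 : ℝ) - t1 / 2 - 1 / 8 * ((t1 : ℝ) - s))) (lip_max _ _ _ _)
  -- values near the tips
  have gv : ∀ t : ℤ, ∀ v : ℝ, min ((x0 : ℝ) + 1 / 2 - t0 / 2 + 1 / 8 * ((t : ℝ) - t0))
      ((x1 : ℝ) + 1 / 2 - t1 / 2 + 1 / 8 * ((t1 : ℝ) - t)) = v →
      (|(t : ℝ) - t0| ≤ 1 ∧ |v - (x0 - t0 / 2)| ≤ 2) ∨
        (|(t : ℝ) - t1| ≤ 1 ∧ |v - (x1 - t1 / 2)| ≤ 2) → g t = v := by
    intro t v hv h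
    rw [← hv]
    apply g5
    intro i hi z hz
    rw [hv]
    rcases h with h | h
    · exact clear _ (P5 i) _ _ _ _ (ca i hi z hz) _ _ h.1 h.2
    · exact clear _ (P5 i) _ _ _ _ (cb i hi z hz) _ _ h.1 h.2
  have fv : ∀ t : ℤ, ∀ v : ℝ, max ((x0 : ℝ) - t0 / 2 - 1 / 8 * ((t : ℝ) - t0))
      ((x1 : ℝ) - t1 / 2 - 1 / 8 * ((t1 : ℝ) - t)) = v →
      (|(t : ℝ) - t0| ≤ 1 ∧ |v - (x0 - t0 / 2)| ≤ 2) ∨
        (|(t : ℝ) - t1| ≤ 1 ∧ |v - (x1 - t1 / 2)| ≤ 2) → f t = v := by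
    intro t v hv h
    rw [← hv]
    apply f5
    intro i hi z hz
    rw [hv]
    rcases h with h | h
    · exact clear _ (P5 i) _ _ _ _ (ca i hi z hz) _ _ h.1 h.2
    · exact clear _ (P5 i) _ _ _ _ (cb i hi z hz) _ _ h.1 h.2
  have gt0 : g t0 = x0 + 1 / 2 - t0 / 2 := by
    apply gv
    · rw [min_eq_left] <;> linarith
    · left
      constructor
      · rw [sub_self, abs_zero]; norm_num
      · rw [show (x0 : ℝ) + 1 / 2 - t0 / 2 - (x0 - t0 / 2) = 1 / 2 by ring]; norm_num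
  have gt0' : g (t0 + 1) = x0 + 5 / 8 - t0 / 2 := by
    apply gv
    · push_cast
      rw [min_eq_left] <;> linarith
    · left
      push_cast
      constructor
      · rw [show (t0 : ℝ) + 1 - t0 = 1 by ring]; norm_num
      · rw [show (x0 : ℝ) + 5 / 8 - t0 / 2 - (x0 - t0 / 2) = 5 / 8 by ring]; norm_num
  have gt1 : g t1 = x1 + 1 / 2 - t1 / 2 := by
    apply gv
    · rw [min_eq_right] <;> linarith
    · right
      constructor
      · rw [sub_self, abs_zero]; norm_num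
      · rw [show (x1 : ℝ) + 1 / 2 - t1 / 2 - (x1 - t1 / 2) = 1 / 2 by ring]; norm_num
  have gt1' : g (t1 - 1) = x1 + 5 / 8 - t1 / 2 := by
    apply gv
    · push_cast
      rw [min_eq_right] <;> linarith
    · right
      push_cast
      constructor
      · rw [show (t1 : ℝ) - 1 - t1 = -1 by ring]; norm_num
      · rw [show (x1 : ℝ) + 5 / 8 - t1 / 2 - (x1 - t1 / 2) = 5 / 8 by ring]; norm_num
  have ft0 : f t0 = x0 - t0 / 2 := by
    apply fv
    · rw [max_eq_left] <;> linarith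
    · left
      constructor
      · rw [sub_self, abs_zero]; norm_num
      · rw [sub_self, abs_zero]; norm_num
  have ft0' : f (t0 + 1) = x0 - 1 / 8 - t0 / 2 := by
    apply fv
    · push_cast
      rw [max_eq_left] <;> linarith
    · left
      push_cast
      constructor
      · rw [show (t0 : ℝ) + 1 - t0 = 1 by ring]; norm_num
      · rw [show (x0 : ℝ) - 1 / 8 - t0 / 2 - (x0 - t0 / 2) = -(1 / 8) by ring, abs_neg]; norm_num
  have ft1 : f t1 = x1 - t1 / 2 := by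
    apply fv
    · rw [max_eq_right] <;> linarith
    · right
      constructor
      · rw [sub_self, abs_zero]; norm_num
      · rw [sub_self, abs_zero]; norm_num
  have ft1' : f (t1 - 1) = x1 - 1 / 8 - t1 / 2 := by
    apply fv
    · push_cast
      rw [max_eq_right] <;> linarith
    · right
      push_cast
      constructor
      · rw [show (t1 : ℝ) - 1 - t1 = -1 by ring]; norm_num
      · rw [show (x1 : ℝ) - 1 / 8 - t1 / 2 - (x1 - t1 / 2) = -(1 / 8) by ring, abs_neg]; norm_num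
  have uv : ∀ (h : ℤ → ℝ) (t v : ℤ), (v : ℝ) ≤ h t + t / 2 → h t + t / 2 < v + 1 → fl h t = v := by
    intro h t v h1 h2
    exact Int.floor_eq_iff.2 ⟨h1, h2⟩
  have eu0 : fl g t0 = x0 := uv _ _ _ (by rw [gt0]; linarith) (by rw [gt0]; linarith)
  have eu0' : fl g (t0 + 1) = x0 + 1 :=
    uv _ _ _ (by rw [gt0']; push_cast; linarith) (by rw [gt0']; push_cast; linarith)
  have eu1 : fl g t1 = x1 := uv _ _ _ (by rw [gt1]; linarith) (by rw [gt1]; linarith)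
  have eu1' : fl g (t1 - 1) = x1 :=
    uv _ _ _ (by rw [gt1']; push_cast; linarith) (by rw [gt1']; push_cast; linarith)
  have ed0 : fl f t0 = x0 := uv _ _ _ (by rw [ft0]; linarith) (by rw [ft0]; linarith)
  have ed0' : fl f (t0 + 1) = x0 :=
    uv _ _ _ (by rw [ft0']; push_cast; linarith) (by rw [ft0']; push_cast; linarith)
  have ed1 : fl f t1 = x1 := uv _ _ _ (by rw [ft1]; linarith) (by rw [ft1]; linarith)
  have ed1' : fl f (t1 - 1) = x1 - 1 :=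
    uv _ _ _ (by rw [ft1']; push_cast; linarith) (by rw [ft1']; push_cast; linarith)
  -- bounds for all times between the tips
  have gl : ∀ t : ℤ, min ((x0 : ℝ) + 1 / 2 + 5 / 8 * (t - t0)) (x1 + 1 / 2 - 3 / 8 * (t1 - t)) ≤
      g t + t / 2 := by
    intro t
    have := g2 t
    rcases min_le_iff.1 this with h | h
    · exact min_le_iff.2 (Or.inl (by linarith))
    · exact min_le_iff.2 (Or.inr (by linarith))
  have gu : ∀ t : ℤ, g t + t / 2 ≤
      min ((x0 : ℝ) + 1 / 2 + 5 / 8 * (t - t0)) (x1 + 1 / 2 - 3 / 8 * (t1 - t)) + de := by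
    intro t
    have := g3 t
    have h1 := min_le_left ((x0 : ℝ) + 1 / 2 - t0 / 2 + 1 / 8 * ((t : ℝ) - t0))
      ((x1 : ℝ) + 1 / 2 - t1 / 2 + 1 / 8 * ((t1 : ℝ) - t))
    have h2 := min_le_right ((x0 : ℝ) + 1 / 2 - t0 / 2 + 1 / 8 * ((t : ℝ) - t0))
      ((x1 : ℝ) + 1 / 2 - t1 / 2 + 1 / 8 * ((t1 : ℝ) - t))
    rw [← sub_le_iff_le_add]
    apply le_min <;> linarith
  have fu : ∀ t : ℤ, f t + t / 2 ≤
      max ((x0 : ℝ) + 3 / 8 * (t - t0)) (x1 - 5 / 8 * (t1 - t)) := by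
    intro t
    have := f2 t
    rcases le_max_iff.1 this with h | h
    · exact le_max_iff.2 (Or.inl (by linarith))
    · exact le_max_iff.2 (Or.inr (by linarith))
  have fl' : ∀ t : ℤ, max ((x0 : ℝ) + 3 / 8 * (t - t0)) (x1 - 5 / 8 * (t1 - t)) - de ≤
      f t + t / 2 := by
    intro t
    have := f3 t
    have h1 := le_max_left ((x0 : ℝ) - t0 / 2 - 1 / 8 * ((t : ℝ) - t0))
      ((x1 : ℝ) - t1 / 2 - 1 / 8 * ((t1 : ℝ) - t))
    have h2 := le_max_right ((x0 : ℝ) - t0 / 2 - 1 / 8 * ((t : ℝ) - t0))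
      ((x1 : ℝ) - t1 / 2 - 1 / 8 * ((t1 : ℝ) - t))
    rw [sub_le_iff_le_add]
    apply max_le <;> linarith
  refine ⟨⟨t0, x0, t1, x1, fl g, fl f⟩, ?_⟩
  constructor <;> simp only
  case t0_neg => omega
  case t1_pos => omega
  case d_zero =>
    have h1 := fl_le f 0
    have h2 := fu 0
    have h3 : (fl f 0 : ℝ) < 0 := by
      refine lt_of_le_of_lt (h1.trans h2) ?_
      push_cast
      apply max_lt <;> linarith
    exact_mod_cast h3
  case u_zero =>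
    have h1 := lt_fl g 0
    have h2 := gl 0
    have h3 : (0 : ℝ) < (fl g 0 : ℝ) := by
      have : (1 : ℝ) < g 0 + (0 : ℤ) / 2 := by
        refine lt_of_lt_of_le ?_ h2
        push_cast
        apply lt_min <;> linarith
      linarith
    exact_mod_cast h3
  case long => omega
  case ut0 => exact eu0
  case dt0 => exact ed0
  case ut1 => exact eu1
  case dt1 => exact ed1
  case ut0' => exact eu0'
  case dt0' => exact ed0'
  case ut1' => exact eu1'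
  case dt1' => exact ed1'
  case ustep => exact fun t _ _ => fl_step g g1 t
  case dstep => exact fun t _ _ => fl_step f f1 t
  case lt =>
    intro t ht ht'
    rcases eq_or_lt_of_le (Int.add_one_le_iff.2 ht) with h | h
    · rw [← h, eu0', ed0']; omega
    rcases eq_or_lt_of_le (Int.le_sub_one_iff.2 ht') with h' | h'
    · rw [h', eu1', ed1']; omega
    have r1 : ((t0 + 1 + 1 : ℤ) : ℝ) ≤ t := by exact_mod_cast Int.add_one_le_iff.2 h
    have r2 : ((t + 1 : ℤ) : ℝ) ≤ ((t1 - 1 : ℤ) : ℝ) := by exact_mod_cast Int.add_one_le_iff.2 h'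
    push_cast at r1 r2
    have h1 := gl t
    have h2 := fu t
    have h3 : max ((x0 : ℝ) + 3 / 8 * (t - t0)) (x1 - 5 / 8 * (t1 - t)) + 1 ≤
        min ((x0 : ℝ) + 1 / 2 + 5 / 8 * (t - t0)) (x1 + 1 / 2 - 3 / 8 * (t1 - t)) := by
      rw [← le_sub_iff_add_le]
      apply max_le <;> rw [le_sub_iff_add_le] <;> apply le_min <;> linarith
    have h4 := lt_fl g t
    have h5 := fl_le f t
    have h6 : (fl f t : ℝ) < (fl g t : ℝ) := by linarith
    exact_mod_cast h6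
  case bt0 => omega
  case bt1 => omega
  case bu =>
    intro t ht ht'
    have r1 : (t0 : ℝ) ≤ t := by exact_mod_cast ht
    have r2 : (t : ℝ) ≤ t1 := by exact_mod_cast ht'
    have h1 := gl t
    have h2 := gu t
    have h3 := lt_fl g t
    have h4 := fl_le g t
    have h5 : -(4 * M : ℝ) ≤ g t + t / 2 := by
      refine le_trans ?_ h1
      apply le_min <;> linarith
    have h6 : g t + t / 2 ≤ 4 * M := by
      have := min_le_right ((x0 : ℝ) + 1 / 2 + 5 / 8 * (t - t0)) (x1 + 1 / 2 - 3 / 8 * (t1 - t))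
      linarith
    have h7 : |(fl g t : ℝ)| ≤ (Sk k : ℝ) := by
      rw [hM, abs_le]
      push_cast
      constructor <;> linarith
    exact_mod_cast h7
  case bd =>
    intro t ht ht'
    have r1 : (t0 : ℝ) ≤ t := by exact_mod_cast ht
    have r2 : (t : ℝ) ≤ t1 := by exact_mod_cast ht'
    have h1 := fl' t
    have h2 := fu t
    have h3 := lt_fl f t
    have h4 := fl_le f t
    have h5 : -(4 * M : ℝ) ≤ f t + t / 2 := by
      have := le_max_left ((x0 : ℝ) + 3 / 8 * (t - t0)) (x1 - 5 / 8 * (t1 - t))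
      linarith
    have h6 : f t + t / 2 ≤ 4 * M := by
      refine h2.trans ?_
      apply max_le <;> linarith
    have h7 : |(fl f t : ℝ)| ≤ (Sk k : ℝ) := by
      rw [hM, abs_le]
      push_cast
      constructor <;> linarith
    exact_mod_cast h7
  case us1 => exact fun s t _ h _ => fl_s1 g g1 s t h
  case us2 => exact fun s t _ h _ => fl_s2 g g1 s t h
  case ds1 => exact fun s t _ h _ => fl_s1 f f1 s t h
  case ds2 => exact fun s t _ h _ => fl_s2 f f1 s t h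
  case ubase =>
    intro t _ _
    have h1 := gl t
    have h3 := lt_fl g t
    have h7 : ((min (8 * x0 + 5 * (t - t0)) (8 * x1 - 3 * (t1 - t)) : ℤ) : ℝ) ≤
        ((8 * fl g t + 8 : ℤ) : ℝ) := by
      push_cast
      rcases min_le_iff.1 h1 with h | h
      · exact min_le_iff.2 (Or.inl (by linarith))
      · exact min_le_iff.2 (Or.inr (by linarith))
    exact (Int.cast_le (R := ℝ)).1 h7
  case dbase =>
    intro t _ _
    have h1 := fu t
    have h3 := fl_le f t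
    have h7 : ((8 * fl f t - 8 : ℤ) : ℝ) ≤
        ((max (8 * x0 + 3 * (t - t0)) (8 * x1 - 5 * (t1 - t)) : ℤ) : ℝ) := by
      push_cast
      rcases le_max_iff.1 h1 with h | h
      · exact le_max_iff.2 (Or.inl (by linarith))
      · exact le_max_iff.2 (Or.inr (by linarith))
    exact (Int.cast_le (R := ℝ)).1 h7
  case bal =>
    have : |2 * (x1 - x0) - (t1 - t0)| ≤ 6 * dl := abs_le.2 ⟨by omega, by omega⟩
    omega
  case ufar =>
    intro t _ _ i hi z hz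
    exact fl_far g (Tk i) (Tk_ge i) z t (g4 i hi z hz t)
  case dfar =>
    intro t _ _ i hi z hz
    exact fl_far f (Tk i) (Tk_ge i) z t (f4 i hi z hz t)

end Pool.Agent.W875.BMGeo

end
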